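import Pool.Agent.Helper431.Core5
import Pool.Agent.Helper431.CycleIso

set_option autoImplicit false

/-!
# Mixed metric dimension and cyclomatic number of 2-connected graphs

The combinatorial core is `Pool.Agent.Helper431.core`.
-/

namespace Pool.Agent.Results.MP_ca4ce9_co.MixedDimBound

open SimpleGraph

/-- `G` is 2-connected: it has at least three vertices, it is connected and it has no cut-vertex. -/
def TwoConnected {V : Type*} (G : SimpleGraph V) : Prop :=
  3 ≤ Nat.card V ∧ G.Connected ∧ ∀ v : V, (G.induce {w | w ≠ v}).Connected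

/-- The distance from the vertex `w` to a vertex or an edge: `d(w, u)` for a vertex `u`, and
`min (d(w, a)) (d(w, b))` for an edge `ab`. -/
noncomputable def eltDist {V : Type*} (G : SimpleGraph V) (w : V) : V ⊕ G.edgeSet → ℕ
  | .inl u => G.dist w u
  | .inr e => Sym2.lift ⟨fun a b => min (G.dist w a) (G.dist w b), fun _ _ => min_comm _ _⟩ e.1

/-- `S` is a mixed resolving set: any two distinct elements of `V(G) ∪ E(G)` have different
distances to some vertex of `S`. -/
def IsMixedResolving {V : Type*} (G : SimpleGraph V) (S : Finset V) : Prop :=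
  ∀ x y : V ⊕ G.edgeSet, x ≠ y → ∃ s ∈ S, eltDist G s x ≠ eltDist G s y

/-- The cyclomatic number `|E| - |V| + 1`. -/
noncomputable def cyclomatic {V : Type*} (G : SimpleGraph V) : ℤ :=
  (G.edgeSet.ncard : ℤ) - (Nat.card V : ℤ) + 1

theorem two_le_degree {V : Type*} [Fintype V] [DecidableEq V] (G : SimpleGraph V)
    [DecidableRel G.Adj] (h : TwoConnected G) (v : V) : 2 ≤ G.degree v := by
  obtain ⟨h3, hc, hcut⟩ := h
  rw [Nat.card_eq_fintype_card] at h3
  have hnt : Nontrivial V := Fintype.one_lt_card_iff_nontrivial.1 (by omega)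
  have h1 : 0 < G.degree v := hc.preconnected.degree_pos_of_nontrivial v
  by_contra hlt
  have hd : G.degree v = 1 := by omega
  rw [← card_neighborFinset_eq_degree, Finset.card_eq_one] at hd
  obtain ⟨u, hu⟩ := hd
  have hvu : G.Adj v u := by
    rw [← mem_neighborFinset, hu]
    exact Finset.mem_singleton_self u
  -- a third vertex
  obtain ⟨w, hw⟩ : ∃ w : V, w ∉ ({v, u} : Finset V) := by
    by_contra hcon
    push Not at hcon
    have h2 : Fintype.card V ≤ 2 := by
      rw [← Finset.card_univ]
      exact (Finset.card_le_card (fun x _ => hcon x)).trans Finset.card_le_two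
    omega
  rw [Finset.mem_insert, Finset.mem_singleton, not_or] at hw
  have hpre := (hcut u).preconnected ⟨v, hvu.ne⟩ ⟨w, hw.2⟩
  obtain ⟨p⟩ := hpre
  cases p with
  | nil => exact hw.1 rfl
  | cons h q =>
    rename_i z
    have hz : G.Adj v z.1 := h
    rw [← mem_neighborFinset, hu, Finset.mem_singleton] at hz
    exact z.2 hz

/-- Every 2-connected finite graph `G` that is not a cycle has a mixed resolving set with at most
`2 c(G)` vertices. -/
theorem result (V : Type*) [Finite V] (G : SimpleGraph V) (h2 : TwoConnected G)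
    (hcycle : ∀ n : ℕ, IsEmpty (G ≃g cycleGraph n)) :
    ∃ S : Finset V, IsMixedResolving G S ∧ (S.card : ℤ) ≤ 2 * cyclomatic G := by
  classical
  have : Fintype V := Fintype.ofFinite V
  have hdeg := two_le_degree G h2
  have hconn := h2.2.1
  have h3 : ∃ v : V, 3 ≤ G.degree v := by
    by_contra hcon
    push Not at hcon
    obtain ⟨n, ⟨e⟩⟩ := Pool.Agent.Helper431.exists_iso_cycleGraph hconn hdeg
      (fun v => by have := hcon v; omega)
    exact (hcycle n).false e
  obtain ⟨r, S, -, hcard, hMR, -⟩ := Pool.Agent.Helper431.core hconn hdeg h3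
  refine ⟨S, ?_, ?_⟩
  · rintro (x | ⟨e, he⟩) (y | ⟨f, hf⟩) hxy
    · obtain ⟨s, hs, h⟩ := hMR.vv x y (fun h => hxy (by rw [h]))
      exact ⟨s, hs, h⟩
    · induction f with
      | _ a b =>
        obtain ⟨s, hs, h⟩ := hMR.ve x a b hf
        exact ⟨s, hs, h⟩
    · induction e with
      | _ a b =>
        obtain ⟨s, hs, h⟩ := hMR.ve y a b he
        exact ⟨s, hs, h.symm⟩
    · induction e with
      | _ a b =>
        induction f with
        | _ c d =>
          obtain ⟨s, hs, h⟩ := hMR.ee a b c d he hf
            (fun h => hxy (by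
              obtain ⟨h1, h2⟩ := h
              subst h1 h2
              rfl))
            (fun h => hxy (by
              obtain ⟨h1, h2⟩ := h
              subst h1 h2
              congr 2
              exact Sym2.eq_swap))
          exact ⟨s, hs, h⟩
  · unfold cyclomatic
    rw [Nat.card_eq_fintype_card, Set.ncard_eq_toFinset_card']
    have : (G.edgeSet.toFinset).card = G.edgeFinset.card := rfl
    rw [this]
    omega

end Pool.Agent.Results.MP_ca4ce9_co.MixedDimBound
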